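import Pool.Agent.Q299.PR.Final

/-!
# The stability constant of Gaussian phase retrieval matrices

Here `M = m + 1` and `N = 2 M - 1 = 2 m + 1`.
-/

namespace Pool.Agent.Results.MP_77e4cc_pr.QuarterRate

open MeasureTheory ProbabilityTheory Set Filter Topology

/-- `ℝ^M` with `M = m + 1`. -/
abbrev E (m : ℕ) := EuclideanSpace ℝ (Fin (m + 1))

/-- The law of the `(2 M - 1) × M` matrix with independent standard Gaussian entries, given by its
`2 M - 1 = 2 m + 1` independent standard Gaussian rows in `ℝ^M`. -/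
noncomputable def law (m : ℕ) : Measure (Fin (2 * m + 1) → E m) :=
  Measure.pi fun _ => stdGaussian (E m)

/-- `sigma_M (A_S)`: the minimum of `‖A_S x‖` over the unit vectors `x` of `ℝ^M`, where `A_S`
consists of the rows `A i` with `i ∈ S` (it is `0` when `|S| < M`). -/
noncomputable def sig {m : ℕ} (A : Fin (2 * m + 1) → E m) (S : Finset (Fin (2 * m + 1))) : ℝ :=
  ⨅ x : {x : E m // ‖x‖ = 1}, √(∑ i ∈ S, (inner ℝ (A i) x.1 : ℝ) ^ 2)

/-- The stability constant `ω(A)`: the minimum of `sigma_M (A_S)` over all the sets `S` of rows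
such that the rows outside `S` have rank smaller than `M = m + 1`. -/
noncomputable def omega {m : ℕ} (A : Fin (2 * m + 1) → E m) : ℝ :=
  ⨅ S : {S : Finset (Fin (2 * m + 1)) //
    Module.finrank ℝ (Submodule.span ℝ (A '' {i | i ∉ S})) < m + 1}, sig A S.1

/-- `max_k ‖A_k‖`. -/
noncomputable def maxRow {m : ℕ} (A : Fin (2 * m + 1) → E m) : ℝ := ⨆ k, ‖A k‖

/-- `β` is admissible when for some constant `C` the bound `ω(A) ≤ C max_k ‖A_k‖ β^M` holds with
probability tending to one. -/
def Admissible (β : ℝ) : Prop :=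
  0 < β ∧ β < 1 ∧ ∃ C : ℝ, 0 < C ∧
    Tendsto (fun m : ℕ => law m {A | C * maxRow A * β ^ (m + 1) < omega A}) atTop (𝓝 0)

theorem result :
    -- Q1: `ω(A) = 4^{-M + o(M)}` with probability tending to one
    (∀ ε : ℝ, 0 < ε → Tendsto (fun m : ℕ =>
      law m {A | ε < |Real.log (omega A) / ((m : ℝ) + 1) + Real.log 4|}) atTop (𝓝 0)) ∧
    -- the lower bound, explicitly
    (∀ (m : ℕ) (t : ℝ), 0 < t →
      law m {A | omega A < t} ≤ ENNReal.ofReal (4 ^ m * ((m : ℝ) + 1) ^ 2 * t)) ∧
    -- Q2: every `β > 1/4` works (with `C = 1`)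
    (∀ β : ℝ, 1 / 4 < β → Tendsto (fun m : ℕ =>
      law m {A | maxRow A * β ^ (m + 1) < omega A}) atTop (𝓝 0)) ∧
    -- and for `β < 1/4` the bound fails with probability tending to one, whatever `C` is
    (∀ β C : ℝ, 0 < β → β < 1 / 4 → 0 < C → Tendsto (fun m : ℕ =>
      law m {A | omega A ≤ C * maxRow A * β ^ (m + 1)}) atTop (𝓝 0)) ∧
    -- the infimum of the admissible `β` is `1/4`
    IsGLB {β | Admissible β} (1 / 4) := by
  have h3 : ∀ β : ℝ, 1 / 4 < β → Tendsto (fun m : ℕ =>
      law m {A | maxRow A * β ^ (m + 1) < omega A}) atTop (𝓝 0) := fun β hβ => Q299.PR.upper_mx hβ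
  have h4 : ∀ β C : ℝ, 0 < β → β < 1 / 4 → 0 < C → Tendsto (fun m : ℕ =>
      law m {A | omega A ≤ C * maxRow A * β ^ (m + 1)}) atTop (𝓝 0) :=
    fun β C h0 h1 hC => Q299.PR.lower_mx h0 h1 hC
  refine ⟨fun ε hε => Q299.PR.log_tendsto hε, fun m t ht => Q299.PR.lower_prob ht, h3, h4, ?_, ?_⟩
  · rintro β ⟨hβ0, _, C, hC, hlim⟩
    by_contra hcon
    rw [not_le] at hcon
    have h5 := hlim.add (h4 β C hβ0 hcon hC)
    rw [add_zero] at h5
    have h6 : ∀ m : ℕ, 1 ≤ law m {A | C * maxRow A * β ^ (m + 1) < omega A} +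
        law m {A | omega A ≤ C * maxRow A * β ^ (m + 1)} := by
      intro m
      have hp : IsProbabilityMeasure (law m) := by unfold law; infer_instance
      rw [← measure_univ (μ := law m)]
      refine (measure_mono ?_).trans (measure_union_le _ _)
      intro A _
      rcases lt_or_ge (C * maxRow A * β ^ (m + 1)) (omega A) with h | h
      · exact Or.inl h
      · exact Or.inr h
    have h7 := ge_of_tendsto h5 (Eventually.of_forall h6)
    exact absurd h7 (by norm_num)
  · intro b hb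
    by_contra hcon
    rw [not_le] at hcon
    obtain ⟨β, h1, h2⟩ := exists_between (lt_min hcon (show (1 / 4 : ℝ) < 1 by norm_num))
    have h5 : Admissible β := by
      refine ⟨by linarith, lt_of_lt_of_le h2 (min_le_right _ _), 1, one_pos, ?_⟩
      simp only [one_mul]
      exact h3 β h1
    exact absurd (hb h5) (not_le.mpr (lt_of_lt_of_le h2 (min_le_left _ _)))

end Pool.Agent.Results.MP_77e4cc_pr.QuarterRate
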